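import Pool.Agent.H61.KW.TC

/-!
Kuiper board KW, row A3C.
-/

open Topology Set
open Pool.Agent.H59 Pool.Agent.H64.LB Pool.Agent.H61.KU Pool.Agent.H61.KV Pool.Agent.H61.KW

namespace Pool.Agent.H53.KW

theorem pf_A3C (h : T_TFT) (h2 : T_LDE) (h3 : T_F5U) (h4 : T_SM2) (h5 : T_SMD) : T_A3C := by
  intro V _ _ _ m hk q' a hq' hTf hra hns
  have hC := hk.cc
  have hq'C : q' ∈ Cn m := hk.mem q' hq'
  have haC : a ∈ Cn m := hTf.mem
  refine ⟨fun u hu huq => ?_, fun u v hu hv huq hvq ru rv => ?_⟩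
  · have ru1 : rk (Cn m) u = 1 := Pool.Agent.H61.KW.ex_rk hC hu
    obtain ⟨-, -, t3, t4, -, -⟩ := h V m hk q' a u hq' hTf huq hu.2.1
    have z1 : (0 : V) ∈ Fc (Cn m) u := Pool.Agent.H61.KW.zero_fc hC hu.1
    obtain ⟨-, -, l3, -, -⟩ := h2 V m hk q' a 0 0 u hq' hTf huq z1 z1
      (fun t ht _ => Pool.Agent.H61.KW.fc_of_zero hC ht)
    rcases Nat.lt_or_ge (rk (Cn m) (a + u)) 5 with h5' | h5'
    · left
      have : rk (Cn m) (a + u) = 4 := by omega
      exact ⟨this, t4 this⟩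
    · rcases Nat.lt_or_ge (rk (Cn m) (a + u)) 6 with h6 | h6
      · exfalso
        have e5 : rk (Cn m) (a + u) = 5 := by omega
        obtain ⟨β, z, y, hβ, hz, hy, ez, ey, d1, d2, m1, m2, r1, -, -, -, -⟩ :=
          h3 V m hk q' a u hq' hTf hu huq e5
        have rβ : rk (Cn m) β = 1 := by omega
        have eβ : Ex (Cn m) β := Pool.Agent.H61.KW.ex_of_rk1 hC (Pool.Agent.H61.KW.mem_C hβ) rβ
        have sβ := (h4 V (Cn m) β hC eβ.1).1 eβ
        have sz := (h4 V (Cn m) z hC ez.1).1 ez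
        have sy := (h4 V (Cn m) y hC ey.1).1 ey
        have hzy : z + y ∈ Cn m := hC.add z ez.1 y ey.1
        have szy := h5 V (Cn m) z y (z + y) 1 1 hC d2 sz sy hzy (Pool.Agent.H61.KW.self hC hzy)
          (Pool.Agent.H61.KW.self hC hzy)
        exact hns (h5 V (Cn m) β (z + y) a 1 2 hC d1 sβ szy haC m2 m1)
      · right
        omega
  · by_contra hcon
    obtain ⟨l1, -, -, -, l5⟩ := h2 V m hk q' a u v q' hq' hTf (Pool.Agent.H61.KW.self hC hq'C) huq hvq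
      (fun t htu htv => Pool.Agent.H61.KW.ex_meet hC hu.1 hv hcon htv htu)
    have r4 := hk.rk4 q' hq'
    have r1 := Pool.Agent.H61.KW.ex_rk hC hu
    have r2 := Pool.Agent.H61.KW.ex_rk hC hv
    omega

end Pool.Agent.H53.KW
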